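import Pool.Agent.helper306_gaps.Prob

/-!
# Randomly thinned sets: almost sure statements
-/

namespace Pool.Agent.helper306_gaps

open Finset MeasureTheory ProbabilityTheory Filter Topology Pool.Agent.helper306_cramer

variable {Ω : Type*} [MeasurableSpace Ω] {μ : Measure Ω} [IsProbabilityMeasure μ]

/-- Borel-Cantelli with an eventual summable bound -/
lemma bc {B : ℕ → Set Ω} {f : ℕ → ℝ} (hf : Summable f) (hf0 : ∀ n, 0 ≤ f n)
    (h : ∀ᶠ n in atTop, μ (B n) ≤ ENNReal.ofReal (f n)) :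
    ∀ᵐ ω ∂μ, ∀ᶠ n in atTop, ω ∉ B n := by
  obtain ⟨N, hN⟩ := eventually_atTop.mp h
  have h1 : ∀ᵐ ω ∂μ, ∀ᶠ n in atTop, ω ∉ (if N ≤ n then B n else ∅) := by
    refine ae_eventually_notMem ?_
    have h2 : ∀ n, μ (if N ≤ n then B n else ∅) ≤ ENNReal.ofReal (f n) := by
      intro n
      split_ifs with hn
      · exact hN n hn
      · simp
    refine ne_top_of_le_ne_top ?_ (ENNReal.tsum_le_tsum h2)
    rw [← ENNReal.ofReal_tsum_of_nonneg hf0 hf]
    exact ENNReal.ofReal_ne_top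
  filter_upwards [h1] with ω hω
  filter_upwards [hω, eventually_ge_atTop N] with n hn hNn
  rwa [if_pos hNn] at hn

lemma exp_two_log {n : ℕ} (hn : 1 ≤ n) {t : ℝ} (ht : 2 * Real.log n ≤ t) :
    Real.exp (-t) ≤ 1 / (n : ℝ) ^ 2 := by
  have hn0 : (0 : ℝ) < n := by exact_mod_cast hn
  calc Real.exp (-t) ≤ Real.exp (-(2 * Real.log n)) := Real.exp_le_exp.mpr (by linarith)
    _ = 1 / (n : ℝ) ^ 2 := by
        rw [Real.exp_neg, mul_comm, Real.exp_mul, Real.exp_log hn0, one_div]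
        norm_cast

/-- one of many disjoint blocks is missing -/
theorem ae_block {lam : ℕ → ℝ} (hl : ∀ m, 0 < lam m) {E : ℕ → Set Ω}
    (hm : ∀ m, MeasurableSet (E m)) (hi : iIndepSet E μ) {s : ℕ → Finset ℕ}
    {I : ℕ → ℕ → Finset ℕ} {c : ℕ → ℝ}
    (h : ∀ᶠ X in atTop, ((s X : Finset ℕ) : Set ℕ).PairwiseDisjoint (I X) ∧
      (∀ i ∈ s X, ∀ m ∈ I X i, μ (E m) = ENNReal.ofReal (pp lam m)) ∧
      (∀ i ∈ s X, ∑ m ∈ I X i, lam m ≤ c X) ∧
      2 * Real.log X ≤ (s X).card * Real.exp (-c X)) :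
    ∀ᵐ ω ∂μ, ∀ᶠ X in atTop, ∃ i ∈ s X, ∀ m ∈ I X i, ω ∉ E m := by
  have h1 : ∀ᵐ ω ∂μ, ∀ᶠ X in atTop, ω ∉ {ω | ∀ i ∈ s X, ∃ m ∈ I X i, ω ∈ E m} := by
    refine bc (f := fun n : ℕ => 1 / (n : ℝ) ^ 2) ?_ (fun n => by positivity) ?_
    · exact Real.summable_one_div_nat_pow.mpr (by norm_num)
    · filter_upwards [h, eventually_ge_atTop 1] with X ⟨hX1, hX2, hX3, hX4⟩ hX
      refine (P_none hl hm hi hX1 hX2 hX3).trans (ENNReal.ofReal_le_ofReal ?_)
      exact exp_two_log hX hX4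
  filter_upwards [h1] with ω hω
  filter_upwards [hω] with X hX
  by_contra hcon
  push Not at hcon
  exact hX hcon

/-- large sets are met -/
theorem ae_meet {lam : ℕ → ℝ} (hl : ∀ m, 0 < lam m) {E : ℕ → Set Ω}
    (hm : ∀ m, MeasurableSet (E m)) (hi : iIndepSet E μ) {J : ℕ → Finset ℕ}
    (h : ∀ᶠ X in atTop, (∀ m ∈ J X, μ (E m) = ENNReal.ofReal (pp lam m)) ∧
      2 * Real.log X ≤ ∑ m ∈ J X, lam m) :
    ∀ᵐ ω ∂μ, ∀ᶠ X in atTop, ∃ m ∈ J X, ω ∈ E m := by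
  have h1 : ∀ᵐ ω ∂μ, ∀ᶠ X in atTop, ω ∉ {ω | ∀ m ∈ J X, ω ∉ E m} := by
    refine bc (f := fun n : ℕ => 1 / (n : ℝ) ^ 2) ?_ (fun n => by positivity) ?_
    · exact Real.summable_one_div_nat_pow.mpr (by norm_num)
    · filter_upwards [h, eventually_ge_atTop 1] with X ⟨hX1, hX2⟩ hX
      rw [P_del hl hm hi hX1]
      exact ENNReal.ofReal_le_ofReal (exp_two_log hX hX2)
  filter_upwards [h1] with ω hω
  filter_upwards [hω] with X hX
  by_contra hcon
  push Not at hcon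
  exact hX hcon

/-- the primes in `(a, b)` -/
def Po (a b : ℕ) : Finset ℕ := (Ioo a b).filter Nat.Prime

lemma mem_Po {a b m : ℕ} : m ∈ Po a b ↔ (a < m ∧ m < b) ∧ m.Prime := by
  unfold Po; rw [Finset.mem_filter, Finset.mem_Ioo]

/-- the weight lost in a gap -/
theorem ae_lost {lam : ℕ → ℝ} (hl : ∀ m, 0 < lam m) {E : ℕ → Set Ω}
    (hm : ∀ m, MeasurableSet (E m)) (hi : iIndepSet E μ) {q₀ : ℕ}
    (hp : ∀ m : ℕ, m.Prime → q₀ ≤ m → μ (E m) = ENNReal.ofReal (pp lam m))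
    (hpr : ∀ ω, ∀ m, ω ∈ E m → m.Prime) {T : ℕ → ℝ}
    (hT : Summable fun q : ℕ => lam q * Real.exp (-T q)) :
    ∀ᵐ ω ∂μ, ∀ᶠ q in atTop, ω ∈ E q → ∀ q', (∀ m, q < m → m < q' → ω ∉ E m) →
      ∑ m ∈ Po q q', lam m ≤ T q := by
  classical
  set F : ℕ → Set Ω := fun q =>
    if h : ∃ r, T q < ∑ m ∈ Po q r, lam m then
      {ω | ω ∈ E q ∧ ∀ m ∈ Po q (Nat.find h), ω ∉ E m} else ∅ with hF
  have h1 : ∀ᵐ ω ∂μ, ∀ᶠ q in atTop, ω ∉ F q := by
    refine bc hT (fun n => mul_nonneg (hl n).le (Real.exp_pos _).le) ?_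
    filter_upwards [eventually_ge_atTop q₀] with q hq
    simp only [hF]
    split_ifs with h
    · by_cases hqp : q.Prime
      · have hq1 : q ∉ Po q (Nat.find h) := by
          rw [mem_Po]; rintro ⟨⟨h1, _⟩, _⟩; omega
        refine (P_one hl hm hi hq1 ?_).trans (ENNReal.ofReal_le_ofReal ?_)
        · intro m hmm
          rw [Finset.mem_insert] at hmm
          rcases hmm with rfl | hmm
          · exact hp m hqp hq
          · rw [mem_Po] at hmm
            exact hp m hmm.2 (by omega)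
        · refine mul_le_mul_of_nonneg_left ?_ (hl q).le
          exact Real.exp_le_exp.mpr (by linarith [Nat.find_spec h])
      · have : {ω | ω ∈ E q ∧ ∀ m ∈ Po q (Nat.find h), ω ∉ E m} = (∅ : Set Ω) := by
          ext ω
          simp only [Set.mem_setOf_eq, Set.mem_empty_iff_false, iff_false, not_and]
          intro h2
          exact absurd (hpr ω q h2) hqp
        rw [this]
        simp
    · simp
  filter_upwards [h1] with ω hω
  filter_upwards [hω] with q hq hqE q' hq'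
  by_contra hcon
  push Not at hcon
  apply hq
  have h : ∃ r, T q < ∑ m ∈ Po q r, lam m := ⟨q', hcon⟩
  simp only [hF]
  rw [dif_pos h]
  refine ⟨hqE, fun m hmm => ?_⟩
  rw [mem_Po] at hmm
  exact hq' m hmm.1.1 (lt_of_lt_of_le hmm.1.2 (Nat.find_min' h hcon))

end Pool.Agent.helper306_gaps
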