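import Pool.Agent.helper306_gaps.Count

/-!
# Many disjoint blocks of small weight
-/

namespace Pool.Agent.helper306_gaps

open Finset Filter Topology

/-- the `j`-th interval of length `L` after `a` -/
def Ij (a L j : ℕ) : Finset ℕ := Pc (a + j * L) (a + (j + 1) * L)

lemma Ij_disj (a L : ℕ) {i j : ℕ} (hij : i ≠ j) : Disjoint (Ij a L i) (Ij a L j) := by
  rw [Finset.disjoint_left]
  intro m h1 h2
  unfold Ij at h1 h2
  rw [mem_Pc] at h1 h2
  rcases Nat.lt_or_gt_of_ne hij with h | h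
  · have : (i + 1) * L ≤ j * L := Nat.mul_le_mul_right L h
    omega
  · have : (j + 1) * L ≤ i * L := Nat.mul_le_mul_right L h
    omega

lemma sum_card_Ij {a b L : ℕ} (hab : a ≤ b) :
    ∑ j ∈ range ((b - a) / L), (Ij a L j).card ≤ (Pc a b).card := by
  rw [← Finset.card_biUnion (fun i _ j _ hij => Ij_disj a L hij)]
  apply Finset.card_le_card
  intro m hm
  rw [Finset.mem_biUnion] at hm
  obtain ⟨j, hj, hmj⟩ := hm
  rw [Finset.mem_range] at hj
  unfold Ij at hmj
  rw [mem_Pc] at hmj ⊢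
  have h1 : (j + 1) * L ≤ (b - a) / L * L := Nat.mul_le_mul_right L hj
  have h2 : (b - a) / L * L ≤ b - a := Nat.div_mul_le_self _ _
  have h3 : 0 ≤ j * L := Nat.zero_le _
  refine ⟨⟨by omega, by omega⟩, hmj.2⟩

/-- the intervals with at most `T` primes -/
noncomputable def Gd (a b L : ℕ) (T : ℝ) : Finset ℕ := by
  classical
  exact (range ((b - a) / L)).filter (fun j => ((Ij a L j).card : ℝ) ≤ T)

lemma mem_Gd {a b L j : ℕ} {T : ℝ} :
    j ∈ Gd a b L T ↔ j < (b - a) / L ∧ ((Ij a L j).card : ℝ) ≤ T := by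
  classical
  unfold Gd
  rw [Finset.mem_filter, Finset.mem_range]

lemma card_Gd {a b L : ℕ} (hL : 0 < L) (hab : a ≤ b) {T : ℝ} (hT : 0 < T) :
    ((b : ℝ) - a) / L - 1 - (Pc a b).card / T ≤ (Gd a b L T).card := by
  classical
  set K := (b - a) / L with hK
  set bad := (range K).filter (fun j => ¬ ((Ij a L j).card : ℝ) ≤ T) with hbad
  have h1 : (Gd a b L T).card + bad.card = K := by
    unfold Gd
    rw [hbad, Finset.card_filter_add_card_filter_not, Finset.card_range]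
  have h2 : (bad.card : ℝ) * T ≤ (Pc a b).card := by
    calc (bad.card : ℝ) * T = ∑ _j ∈ bad, T := by rw [Finset.sum_const, nsmul_eq_mul]
      _ ≤ ∑ j ∈ bad, ((Ij a L j).card : ℝ) := by
          refine Finset.sum_le_sum (fun j hj => ?_)
          rw [hbad, Finset.mem_filter] at hj
          exact (not_le.mp hj.2).le
      _ ≤ ∑ j ∈ range K, ((Ij a L j).card : ℝ) :=
          Finset.sum_le_sum_of_subset_of_nonneg (Finset.filter_subset _ _)
            (fun _ _ _ => Nat.cast_nonneg _)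
      _ ≤ (Pc a b).card := by exact_mod_cast sum_card_Ij hab
  have h3 : (bad.card : ℝ) ≤ (Pc a b).card / T := by
    rw [le_div_iff₀ hT]; exact h2
  have h4 : ((b : ℝ) - a) / L - 1 ≤ K := by
    have h5 : b - a < (K + 1) * L := by
      rw [hK, add_mul, one_mul]
      exact Nat.lt_div_mul_add hL
    have h6 : ((b - a : ℕ) : ℝ) < ((K : ℝ) + 1) * L := by exact_mod_cast h5
    rw [Nat.cast_sub hab] at h6
    have hL' : (0 : ℝ) < L := by exact_mod_cast hL
    have h7 : ((b : ℝ) - a) / L < K + 1 := by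
      rw [div_lt_iff₀ hL']; exact h6
    linarith
  have h5 : ((Gd a b L T).card : ℝ) + bad.card = K := by exact_mod_cast h1
  linarith

lemma sum_lam_le {lam : ℕ → ℝ} {J : Finset ℕ} {x : ℕ} {κ : ℝ}
    (h : ∀ m ∈ J, |lam m - lam x| ≤ κ * lam x) :
    ∑ m ∈ J, lam m ≤ J.card * ((1 + κ) * lam x) := by
  rw [← nsmul_eq_mul, ← Finset.sum_const]
  refine Finset.sum_le_sum (fun m hm => ?_)
  have := (abs_le.mp (h m hm)).2
  linarith

variable {lam : ℕ → ℝ} {θ : ℝ}

/-- numerical final step -/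
lemma final_count {X : ℕ} (hX : 1 < X) {θ ε N : ℝ} (h1 : (X : ℝ) ^ (1 - θ - ε / 4) ≤ N)
    (h2 : 2 * Real.log X ≤ (X : ℝ) ^ (ε / 4)) :
    2 * Real.log X ≤ N * Real.exp (-((1 - θ - ε / 2) * Real.log X)) := by
  have hX0 : (0 : ℝ) < X := by positivity
  have h3 : Real.exp (-((1 - θ - ε / 2) * Real.log X)) = (X : ℝ) ^ (-(1 - θ - ε / 2)) := by
    rw [Real.rpow_def_of_pos hX0]; congr 1; ring
  rw [h3]
  calc 2 * Real.log X ≤ (X : ℝ) ^ (ε / 4) := h2
    _ = (X : ℝ) ^ (1 - θ - ε / 4) * (X : ℝ) ^ (-(1 - θ - ε / 2)) := by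
        rw [← Real.rpow_add hX0]; congr 1; ring
    _ ≤ N * (X : ℝ) ^ (-(1 - θ - ε / 2)) :=
        mul_le_mul_of_nonneg_right h1 (Real.rpow_nonneg hX0.le _)

/-- the intervals of length `(1 - θ - ε) (log X) ^ 2 / lam X` -/
theorem blocks_len (h : Reg lam θ) (hθ0 : 0 ≤ θ) {ε η : ℝ} (hε : 0 < ε)
    (hεθ : ε < 1 - θ) (hη : 0 < η)
    (hslow : ∀ᶠ x : ℕ in atTop, ∀ y : ℕ, x ≤ y → (y : ℝ) ≤ (1 + 3 * η) * x →
      |lam y - lam x| ≤ ε / 20 * lam x) :
    ∀ᶠ X : ℕ in atTop, ∃ (L : ℕ) (s : Finset ℕ), 0 < L ∧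
      (1 - θ - ε) * Real.log X ^ 2 / lam X ≤ L ∧
      (∀ j ∈ s, ⌊(1 + η) * X⌋₊ + (j + 1) * L ≤ ⌊(1 + 2 * η) * X⌋₊) ∧
      (∀ j ∈ s, ∑ m ∈ Ij ⌊(1 + η) * X⌋₊ L j, lam m ≤ (1 - θ - ε / 2) * Real.log X) ∧
      2 * Real.log X ≤ s.card * Real.exp (-((1 - θ - ε / 2) * Real.log X)) := by
  have hε1 : ε < 1 := by linarith
  filter_upwards [hslow, h.ev_small one_pos, h.ev_len hθ0 (show 0 < ε / 8 by linarith),
    window_bounds (c := 1 + η) (d := 1 + 2 * η) (κ := η * (ε / 20)) (by linarith) (by linarith)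
      (by positivity),
    ev_pow (κ := η * (ε / 20)) (u := 1 - θ - ε / 8) (v := 1 - θ - ε / 4) (by positivity)
      (by linarith) (by linarith),
    ev_log (κ := ε / 4) (C := 2) (by linarith) (by norm_num),
    tendsto_log_nat.eventually_ge_atTop (8 / ε), eventually_gt_atTop 1]
    with X a1 a2 a3 a4 a5 a6 a7 a8
  have hX0 : (0 : ℝ) < X := by positivity
  have hp := h.pos X
  set l := Real.log X with hl
  have hl8 : 8 ≤ ε * l := by
    rw [div_le_iff₀ hε] at a7; linarith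
  have hl0 : 8 < l := by nlinarith
  set a := ⌊(1 + η) * X⌋₊ with ha
  set b := ⌊(1 + 2 * η) * X⌋₊ with hb
  have hab : a ≤ b := Nat.floor_le_floor (by nlinarith)
  set L := ⌈(1 - θ - ε) * l ^ 2 / lam X⌉₊ with hLdef
  have hLpos : 0 < (1 - θ - ε) * l ^ 2 / lam X := by
    have : 0 < 1 - θ - ε := by linarith
    positivity
  have hL0 : 0 < L := Nat.ceil_pos.mpr hLpos
  have hL0' : (0 : ℝ) < L := by exact_mod_cast hL0
  have hL1 : (L : ℝ) ≤ (1 - θ - ε) * l ^ 2 / lam X + 1 := (Nat.ceil_lt_add_one hLpos.le).le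
  have hL2 : (L : ℝ) ≤ (X : ℝ) ^ (θ + ε / 8) := by
    refine le_trans (hL1.trans ?_) a3
    have : (1 - θ - ε) * l ^ 2 / lam X ≤ l ^ 2 / lam X := by
      apply div_le_div_of_nonneg_right _ hp.le
      nlinarith [sq_nonneg l]
    linarith
  set T := (1 + 3 * (ε / 20)) * L / l with hT
  have hT0 : 0 < T := by positivity
  have hmul : ∀ j ∈ Gd a b L T, a + (j + 1) * L ≤ b := by
    intro j hj
    rw [mem_Gd] at hj
    have h1 : (j + 1) * L ≤ (b - a) / L * L := Nat.mul_le_mul_right L hj.1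
    have h2 : (b - a) / L * L ≤ b - a := Nat.div_mul_le_self _ _
    omega
  refine ⟨L, Gd a b L T, hL0, Nat.le_ceil _, hmul, ?_, ?_⟩
  · intro j hj
    have hjb := hmul j hj
    rw [mem_Gd] at hj
    have h1 : ∑ m ∈ Ij a L j, lam m ≤ (Ij a L j).card * ((1 + ε / 20) * lam X) := by
      apply sum_lam_le
      intro m hm
      unfold Ij at hm
      rw [mem_Pc] at hm
      have hXa : X ≤ a := by
        rw [ha]
        apply Nat.le_floor
        nlinarith
      have hb1 : (b : ℝ) ≤ (1 + 2 * η) * X := by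
        rw [hb]; exact Nat.floor_le (by positivity)
      have hmb : (m : ℝ) ≤ b := by exact_mod_cast hm.1.2.trans hjb
      refine a1 m (by omega) ?_
      nlinarith
    have h2 : (Ij a L j).card * ((1 + ε / 20) * lam X) ≤ T * ((1 + ε / 20) * lam X) :=
      mul_le_mul_of_nonneg_right hj.2 (by positivity)
    have h3 : T * ((1 + ε / 20) * lam X)
        = (1 + 3 * (ε / 20)) * (1 + ε / 20) * (L * lam X / l) := by
      rw [hT]; field_simp
    have h4 : (L : ℝ) * lam X / l ≤ (1 - θ - ε) * l + 1 := by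
      rw [div_le_iff₀ (by linarith)]
      have h5 : (L : ℝ) * lam X ≤ ((1 - θ - ε) * l ^ 2 / lam X + 1) * lam X :=
        mul_le_mul_of_nonneg_right hL1 hp.le
      have h6 : ((1 - θ - ε) * l ^ 2 / lam X + 1) * lam X = (1 - θ - ε) * l ^ 2 + lam X := by
        field_simp
      nlinarith
    have h5 : (1 + 3 * (ε / 20)) * (1 + ε / 20) ≤ 1 + ε / 4 := by nlinarith
    have h6 : 0 ≤ (1 - θ - ε) * l + 1 := by nlinarith
    calc ∑ m ∈ Ij a L j, lam m ≤ (1 + 3 * (ε / 20)) * (1 + ε / 20) * (L * lam X / l) := by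
          rw [← h3]; exact h1.trans h2
      _ ≤ (1 + ε / 4) * ((1 - θ - ε) * l + 1) := by
          apply mul_le_mul h5 h4 (by positivity) (by positivity)
      _ ≤ (1 - θ - ε / 2) * l := by nlinarith
  · have h1 := card_Gd hL0 hab hT0
    have hb1 : (1 + 2 * η) * X - 1 ≤ b := by
      have := Nat.lt_floor_add_one ((1 + 2 * η) * (X : ℝ))
      rw [← hb] at this; linarith
    have ha1 : (a : ℝ) ≤ (1 + η) * X := by
      rw [ha]; exact Nat.floor_le (by positivity)
    have h2 : ((Pc a b).card : ℝ) / T ≤ η * (1 - ε / 20) * (X / L) := by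
      rw [div_le_iff₀ hT0]
      have h3 : η * (1 - ε / 20) * (X / L) * T
          = η * ((1 - ε / 20) * (1 + 3 * (ε / 20))) * (X / l) := by
        rw [hT]; field_simp
      rw [h3]
      refine a4.2.trans ?_
      apply mul_le_mul_of_nonneg_right _ (by positivity)
      have h4 : 1 + ε / 20 ≤ (1 - ε / 20) * (1 + 3 * (ε / 20)) := by nlinarith
      nlinarith
    have h3 : η * (X / L) - 1 ≤ ((b : ℝ) - a) / L := by
      have h4 : (η * X - 1) / L ≤ ((b : ℝ) - a) / L := by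
        apply div_le_div_of_nonneg_right _ hL0'.le
        linarith
      have h5 : (η * X - 1) / L = η * (X / L) - 1 / L := by ring
      have h6 : (1 : ℝ) / L ≤ 1 := by
        rw [div_le_one hL0']
        exact_mod_cast hL0
      linarith
    have h4 : (X : ℝ) ^ (1 - θ - ε / 8) ≤ X / L := by
      rw [le_div_iff₀ hL0']
      calc (X : ℝ) ^ (1 - θ - ε / 8) * L ≤ (X : ℝ) ^ (1 - θ - ε / 8) * (X : ℝ) ^ (θ + ε / 8) :=
            mul_le_mul_of_nonneg_left hL2 (Real.rpow_nonneg hX0.le _)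
        _ = X := by
            rw [← Real.rpow_add hX0]
            have : 1 - θ - ε / 8 + (θ + ε / 8) = 1 := by ring
            rw [this, Real.rpow_one]
    refine final_count a8 ?_ a6
    have h5 : η * (ε / 20) * (X : ℝ) ^ (1 - θ - ε / 8) ≤ η * (ε / 20) * (X / L) :=
      mul_le_mul_of_nonneg_left h4 (by positivity)
    linarith

end Pool.Agent.helper306_gaps
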