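import Pool.Agent.helper306_gaps.Blocks

/-!
# Many disjoint blocks of consecutive primes
-/

namespace Pool.Agent.helper306_gaps

open Finset Filter Topology

/-- the primes with the indices `P + j m, ..., P + (j + 1) m - 1` -/
noncomputable def Bj (P m j : ℕ) : Finset ℕ := by
  classical
  exact (Ico (P + j * m) (P + (j + 1) * m)).image (Nat.nth Nat.Prime)

lemma mem_Bj {P m j p : ℕ} :
    p ∈ Bj P m j ↔ ∃ i, (P + j * m ≤ i ∧ i < P + (j + 1) * m) ∧ Nat.nth Nat.Prime i = p := by
  classical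
  unfold Bj
  rw [Finset.mem_image]
  simp only [Finset.mem_Ico]

lemma nth_inj : Function.Injective (Nat.nth Nat.Prime) :=
  Nat.nth_injective Nat.infinite_setOf_prime

lemma card_Bj (P m j : ℕ) : (Bj P m j).card = m := by
  classical
  unfold Bj
  rw [Finset.card_image_of_injective _ nth_inj, Nat.card_Ico]
  have : (j + 1) * m = j * m + m := by ring
  omega

lemma Bj_prime {P m j p : ℕ} (h : p ∈ Bj P m j) : p.Prime := by
  rw [mem_Bj] at h
  obtain ⟨i, _, rfl⟩ := h
  exact Nat.prime_nth_prime i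

lemma Bj_disj (P m : ℕ) {i j : ℕ} (hij : i ≠ j) : Disjoint (Bj P m i) (Bj P m j) := by
  rw [Finset.disjoint_left]
  intro p h1 h2
  rw [mem_Bj] at h1 h2
  obtain ⟨k, hk, hkp⟩ := h1
  obtain ⟨k', hk', hkp'⟩ := h2
  have : k = k' := nth_inj (hkp.trans hkp'.symm)
  subst this
  rcases Nat.lt_or_gt_of_ne hij with h | h
  · have : (i + 1) * m ≤ j * m := Nat.mul_le_mul_right m h
    omega
  · have : (j + 1) * m ≤ i * m := Nat.mul_le_mul_right m h
    omega

lemma nth_gt {a i : ℕ} (h : Nat.primeCounting a ≤ i) : a < Nat.nth Nat.Prime i := by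
  unfold Nat.primeCounting Nat.primeCounting' at h
  exact (Nat.count_le_iff_le_nth Nat.infinite_setOf_prime).mp h

lemma nth_le {b i : ℕ} (h : i < Nat.primeCounting b) : Nat.nth Nat.Prime i ≤ b := by
  unfold Nat.primeCounting Nat.primeCounting' at h
  exact Nat.lt_succ_iff.mp ((Nat.lt_nth_iff_count_lt Nat.infinite_setOf_prime).mp h)

variable {lam : ℕ → ℝ} {θ : ℝ}

/-- the blocks of `(1 - θ - ε) log X / lam X` consecutive primes -/
theorem blocks_num (h : Reg lam θ) (hθ0 : 0 ≤ θ) {ε η : ℝ} (hε : 0 < ε)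
    (hεθ : ε < 1 - θ) (hη : 0 < η)
    (hslow : ∀ᶠ x : ℕ in atTop, ∀ y : ℕ, x ≤ y → (y : ℝ) ≤ (1 + 3 * η) * x →
      |lam y - lam x| ≤ ε / 20 * lam x) :
    ∀ᶠ X : ℕ in atTop, ∃ (m : ℕ) (s : Finset ℕ), 0 < m ∧
      (1 - θ - ε) * Real.log X / lam X ≤ m ∧
      (∀ j ∈ s, Nat.primeCounting ⌊(1 + η) * X⌋₊ + (j + 1) * m
        ≤ Nat.primeCounting ⌊(1 + 2 * η) * X⌋₊) ∧
      (∀ j ∈ s, ∑ p ∈ Bj (Nat.primeCounting ⌊(1 + η) * X⌋₊) m j, lam p
        ≤ (1 - θ - ε / 2) * Real.log X) ∧
      2 * Real.log X ≤ s.card * Real.exp (-((1 - θ - ε / 2) * Real.log X)) := by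
  have hε1 : ε < 1 := by linarith
  filter_upwards [hslow, h.ev_small (show 0 < ε / 20 by linarith),
    h.ev_len hθ0 (show 0 < ε / 16 by linarith),
    window_bounds (c := 1 + η) (d := 1 + 2 * η) (κ := η / 2) (by linarith) (by linarith)
      (by positivity),
    ev_pow (κ := η / 2) (u := 1 - θ - ε / 8) (v := 1 - θ - ε / 4) (by positivity)
      (by linarith) (by linarith),
    ev_log (κ := ε / 4) (C := 2) (by linarith) (by norm_num),
    ev_log (κ := ε / 16) (C := 1) (by linarith) (by norm_num),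
    tendsto_log_nat.eventually_ge_atTop 1, eventually_gt_atTop 1]
    with X a1 a2 a3 a4 a5 a6 a6' a7 a8
  have hX0 : (0 : ℝ) < X := by positivity
  have hp := h.pos X
  set l := Real.log X with hl
  set a := ⌊(1 + η) * X⌋₊ with ha
  set b := ⌊(1 + 2 * η) * X⌋₊ with hb
  have hab : a ≤ b := Nat.floor_le_floor (by nlinarith)
  set m := ⌈(1 - θ - ε) * l / lam X⌉₊ with hm
  have hmpos : 0 < (1 - θ - ε) * l / lam X := by
    have : 0 < 1 - θ - ε := by linarith
    positivity
  have hm0 : 0 < m := Nat.ceil_pos.mpr hmpos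
  have hm0' : (0 : ℝ) < m := by exact_mod_cast hm0
  have hm1 : (m : ℝ) ≤ (1 - θ - ε) * l / lam X + 1 := (Nat.ceil_lt_add_one hmpos.le).le
  have hm2 : (m : ℝ) ≤ (X : ℝ) ^ (θ + ε / 16) := by
    refine le_trans (hm1.trans ?_) a3
    have : (1 - θ - ε) * l / lam X ≤ l ^ 2 / lam X := by
      apply div_le_div_of_nonneg_right _ hp.le
      nlinarith
    linarith
  set K := (Nat.primeCounting b - Nat.primeCounting a) / m with hK
  have hpc := card_Pc hab
  have hmul : ∀ j ∈ range K, Nat.primeCounting a + (j + 1) * m ≤ Nat.primeCounting b := by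
    intro j hj
    rw [Finset.mem_range] at hj
    have h1 : (j + 1) * m ≤ K * m := Nat.mul_le_mul_right m hj
    have h2 : K * m ≤ Nat.primeCounting b - Nat.primeCounting a := Nat.div_mul_le_self _ _
    omega
  refine ⟨m, range K, hm0, Nat.le_ceil _, hmul, ?_, ?_⟩
  · intro j hj
    have hjb := hmul j hj
    have h1 : ∑ p ∈ Bj (Nat.primeCounting a) m j, lam p
        ≤ (Bj (Nat.primeCounting a) m j).card * ((1 + ε / 20) * lam X) := by
      apply sum_lam_le
      intro p hpp
      rw [mem_Bj] at hpp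
      obtain ⟨i, hi, rfl⟩ := hpp
      have hXa : X ≤ a := by
        rw [ha]
        apply Nat.le_floor
        nlinarith
      have hb1 : (b : ℝ) ≤ (1 + 2 * η) * X := by
        rw [hb]; exact Nat.floor_le (by positivity)
      have h2 : a < Nat.nth Nat.Prime i := nth_gt (by
        have : 0 ≤ j * m := Nat.zero_le _
        omega)
      have h3 : Nat.nth Nat.Prime i ≤ b := nth_le (by omega)
      have h4 : (Nat.nth Nat.Prime i : ℝ) ≤ b := by exact_mod_cast h3
      refine a1 _ (by omega) ?_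
      nlinarith
    rw [card_Bj] at h1
    refine h1.trans ?_
    have h2 : (m : ℝ) * ((1 + ε / 20) * lam X)
        ≤ ((1 - θ - ε) * l / lam X + 1) * ((1 + ε / 20) * lam X) :=
      mul_le_mul_of_nonneg_right hm1 (by positivity)
    have h3 : ((1 - θ - ε) * l / lam X + 1) * ((1 + ε / 20) * lam X)
        = (1 + ε / 20) * ((1 - θ - ε) * l + lam X) := by
      field_simp
    rw [h3] at h2
    refine h2.trans ?_
    have h4 : (1 + ε / 20) * ((1 - θ - ε) * l + lam X)
        ≤ (1 + ε / 20) * ((1 - θ - ε) * l + ε / 20 * l) := by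
      apply mul_le_mul_of_nonneg_left _ (by positivity)
      linarith
    refine h4.trans ?_
    have h5 : (1 + ε / 20) * (1 - θ - ε + ε / 20) ≤ 1 - θ - ε / 2 := by nlinarith
    nlinarith
  · rw [Finset.card_range]
    refine final_count a8 ?_ a6
    have h1 : ((Pc a b).card : ℝ) / m - 1 ≤ K := by
      have h5 : (Pc a b).card < (K + 1) * m := by
        have h6 : Nat.primeCounting b - Nat.primeCounting a = (Pc a b).card := by omega
        rw [hK, h6, add_mul, one_mul]
        exact Nat.lt_div_mul_add hm0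
      have h6 : ((Pc a b).card : ℝ) < ((K : ℝ) + 1) * m := by exact_mod_cast h5
      have h7 : ((Pc a b).card : ℝ) / m < K + 1 := by
        rw [div_lt_iff₀ hm0']; exact h6
      linarith
    have h2 : (X : ℝ) ^ (1 - ε / 16) ≤ X / l := by
      rw [le_div_iff₀ (by linarith)]
      calc (X : ℝ) ^ (1 - ε / 16) * l ≤ (X : ℝ) ^ (1 - ε / 16) * (X : ℝ) ^ (ε / 16) :=
            mul_le_mul_of_nonneg_left (by linarith) (Real.rpow_nonneg hX0.le _)
        _ = X := by
            rw [← Real.rpow_add hX0]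
            have : 1 - ε / 16 + ε / 16 = 1 := by ring
            rw [this, Real.rpow_one]
    have h3 : η / 2 * (X : ℝ) ^ (1 - θ - ε / 8) ≤ (Pc a b).card / m := by
      rw [le_div_iff₀ hm0']
      calc η / 2 * (X : ℝ) ^ (1 - θ - ε / 8) * m
          ≤ η / 2 * (X : ℝ) ^ (1 - θ - ε / 8) * (X : ℝ) ^ (θ + ε / 16) :=
            mul_le_mul_of_nonneg_left hm2 (by positivity)
        _ = η / 2 * (X : ℝ) ^ (1 - ε / 16) := by
            rw [mul_assoc, ← Real.rpow_add hX0]; congr 2; ring
        _ ≤ η / 2 * (X / l) := mul_le_mul_of_nonneg_left h2 (by positivity)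
        _ ≤ (Pc a b).card := by
            refine le_trans (le_of_eq ?_) a4.1
            ring
    linarith

end Pool.Agent.helper306_gaps
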