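import Pool.Agent.Helper923.PNT
import Pool.Agent.helper306_gaps.AE

/-!
# Primes in windows, asymptotic facts
-/

namespace Pool.Agent.helper306_gaps

open Finset Filter Topology

/-- the primes in `(a, b]` -/
def Pc (a b : ℕ) : Finset ℕ := (Ioc a b).filter Nat.Prime

lemma mem_Pc {a b m : ℕ} : m ∈ Pc a b ↔ (a < m ∧ m ≤ b) ∧ m.Prime := by
  unfold Pc; rw [Finset.mem_filter, Finset.mem_Ioc]

lemma card_Pc {a b : ℕ} (h : a ≤ b) :
    (Pc a b).card + Nat.primeCounting a = Nat.primeCounting b := by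
  unfold Nat.primeCounting Nat.primeCounting'
  rw [Nat.count_eq_card_filter_range, Nat.count_eq_card_filter_range]
  have h1 : (range (b + 1)).filter Nat.Prime = Pc a b ∪ (range (a + 1)).filter Nat.Prime := by
    ext m
    rw [Finset.mem_union, mem_Pc, Finset.mem_filter, Finset.mem_filter, Finset.mem_range,
      Finset.mem_range]
    constructor
    · rintro ⟨h1, h2⟩
      rcases Nat.lt_or_ge a m with h3 | h3
      · exact Or.inl ⟨⟨h3, by omega⟩, h2⟩
      · exact Or.inr ⟨by omega, h2⟩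
    · rintro (⟨⟨h1, h2⟩, h3⟩ | ⟨h1, h2⟩)
      · exact ⟨by omega, h3⟩
      · exact ⟨by omega, h2⟩
  rw [h1, Finset.card_union_of_disjoint]
  rw [Finset.disjoint_left]
  intro m h2 h3
  rw [mem_Pc] at h2
  rw [Finset.mem_filter, Finset.mem_range] at h3
  omega

lemma pi_scaled {c : ℝ} (hc : 0 < c) :
    Tendsto (fun X : ℕ => (Nat.primeCounting ⌊c * X⌋₊ : ℝ) * Real.log X / X) atTop (𝓝 c) := by
  have h0 : Tendsto (fun X : ℕ => c * (X : ℝ)) atTop atTop :=
    tendsto_natCast_atTop_atTop.const_mul_atTop hc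
  have h1 := Pool.Agent.Helper923.PNT.pi_tendsto.comp h0
  have hlog : Tendsto (fun X : ℕ => Real.log X) atTop atTop :=
    Real.tendsto_log_atTop.comp tendsto_natCast_atTop_atTop
  have h2 : Tendsto (fun X : ℕ => Real.log X / Real.log (c * X)) atTop (𝓝 1) := by
    have h3 : Tendsto (fun X : ℕ => Real.log c / Real.log X + 1) atTop (𝓝 (0 + 1)) :=
      (tendsto_const_nhds.div_atTop hlog).add tendsto_const_nhds
    rw [zero_add] at h3
    have h4 := h3.inv₀ one_ne_zero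
    rw [inv_one] at h4
    refine h4.congr' ?_
    filter_upwards [hlog.eventually_gt_atTop 0, eventually_gt_atTop 0] with X hX hX0
    have hX0' : (X : ℝ) ≠ 0 := by exact_mod_cast hX0.ne'
    rw [Real.log_mul hc.ne' hX0', div_add_one hX.ne', inv_div]
  have h3 := (h1.mul h2).mul_const c
  rw [one_mul, one_mul] at h3
  refine h3.congr' ?_
  filter_upwards [eventually_gt_atTop 0, h0.eventually_gt_atTop 1] with X hX0 hX1
  have hX0' : (X : ℝ) ≠ 0 := by exact_mod_cast hX0.ne'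
  have hl : Real.log (c * X) ≠ 0 := (Real.log_pos hX1).ne'
  simp only [Function.comp]
  field_simp

lemma window {c d : ℝ} (hc : 0 < c) (hcd : c ≤ d) :
    Tendsto (fun X : ℕ => ((Pc ⌊c * X⌋₊ ⌊d * X⌋₊).card : ℝ) * Real.log X / X) atTop
      (𝓝 (d - c)) := by
  have h := (pi_scaled (lt_of_lt_of_le hc hcd)).sub (pi_scaled hc)
  refine h.congr (fun X => ?_)
  have h1 : (Pc ⌊c * X⌋₊ ⌊d * X⌋₊).card + Nat.primeCounting ⌊c * X⌋₊
      = Nat.primeCounting ⌊d * X⌋₊ :=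
    card_Pc (Nat.floor_le_floor (mul_le_mul_of_nonneg_right hcd (Nat.cast_nonneg _)))
  have h2 : ((Pc ⌊c * X⌋₊ ⌊d * X⌋₊).card : ℝ) + Nat.primeCounting ⌊c * X⌋₊
      = Nat.primeCounting ⌊d * X⌋₊ := by exact_mod_cast h1
  rw [← h2]
  ring

lemma window_bounds {c d κ : ℝ} (hc : 0 < c) (hcd : c ≤ d) (hκ : 0 < κ) :
    ∀ᶠ X : ℕ in atTop, (d - c - κ) * (X / Real.log X) ≤ (Pc ⌊c * X⌋₊ ⌊d * X⌋₊).card ∧
      ((Pc ⌊c * X⌋₊ ⌊d * X⌋₊).card : ℝ) ≤ (d - c + κ) * (X / Real.log X) := by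
  have hlog : Tendsto (fun X : ℕ => Real.log X) atTop atTop :=
    Real.tendsto_log_atTop.comp tendsto_natCast_atTop_atTop
  have h1 := (window hc hcd).eventually (lt_mem_nhds (show d - c - κ < d - c by linarith))
  have h2 := (window hc hcd).eventually (gt_mem_nhds (show d - c < d - c + κ by linarith))
  filter_upwards [h1, h2, hlog.eventually_gt_atTop 0, eventually_gt_atTop 0] with X a1 a2 a3 a4
  have hX : (0 : ℝ) < X := by exact_mod_cast a4
  constructor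
  · rw [lt_div_iff₀ hX] at a1
    rw [← mul_div_assoc, div_le_iff₀ a3]
    exact a1.le
  · rw [div_lt_iff₀ hX] at a2
    rw [← mul_div_assoc, le_div_iff₀ a3]
    exact a2.le

lemma tendsto_log_nat : Tendsto (fun X : ℕ => Real.log X) atTop atTop :=
  Real.tendsto_log_atTop.comp tendsto_natCast_atTop_atTop

lemma ev_pow {κ u v : ℝ} (hκ : 0 < κ) (hv : 0 ≤ v) (huv : v < u) :
    ∀ᶠ X : ℕ in atTop, (X : ℝ) ^ v + 2 ≤ κ * (X : ℝ) ^ u := by
  have h1 : Tendsto (fun X : ℕ => (X : ℝ) ^ (u - v)) atTop atTop :=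
    (tendsto_rpow_atTop (by linarith)).comp tendsto_natCast_atTop_atTop
  filter_upwards [h1.eventually_ge_atTop (3 / κ), eventually_ge_atTop 1] with X hX hX1
  have hX1' : (1 : ℝ) ≤ X := by exact_mod_cast hX1
  have hX0 : (0 : ℝ) < X := by linarith
  have h2 : (1 : ℝ) ≤ (X : ℝ) ^ v := Real.one_le_rpow hX1' hv
  have h3 : (X : ℝ) ^ u = (X : ℝ) ^ (u - v) * (X : ℝ) ^ v := by
    rw [← Real.rpow_add hX0]; congr 1; ring
  have h4 : 3 ≤ κ * (X : ℝ) ^ (u - v) := by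
    rw [div_le_iff₀ hκ] at hX; linarith
  rw [h3, ← mul_assoc]
  nlinarith

lemma ev_log {κ C : ℝ} (hκ : 0 < κ) (hC : 0 < C) :
    ∀ᶠ X : ℕ in atTop, C * Real.log X ≤ (X : ℝ) ^ κ := by
  have h := (isLittleO_log_rpow_atTop hκ).bound (show 0 < 1 / C by positivity)
  have h1 := (tendsto_natCast_atTop_atTop (R := ℝ)).eventually h
  filter_upwards [h1, eventually_ge_atTop 1] with X hX hX1
  have hX1' : (1 : ℝ) ≤ X := by exact_mod_cast hX1
  rw [Real.norm_eq_abs, Real.norm_eq_abs, abs_of_nonneg (Real.log_nonneg hX1'),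
    abs_of_nonneg (Real.rpow_nonneg (by linarith) _)] at hX
  calc C * Real.log X ≤ C * (1 / C * (X : ℝ) ^ κ) := mul_le_mul_of_nonneg_left hX hC.le
    _ = (X : ℝ) ^ κ := by field_simp

/-- the conditions on the weights -/
structure Reg (lam : ℕ → ℝ) (θ : ℝ) : Prop where
  pos : ∀ m, 0 < lam m
  idx : Tendsto (fun m : ℕ => Real.log (lam m) / Real.log m) atTop (𝓝 (-θ))
  small : Tendsto (fun m : ℕ => lam m / Real.log m) atTop (𝓝 0)
  slow : ∀ ε : ℝ, 0 < ε → ∃ η : ℝ, 0 < η ∧ ∀ᶠ x : ℕ in atTop, ∀ y : ℕ, x ≤ y →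
    (y : ℝ) ≤ (1 + η) * x → |lam y - lam x| ≤ ε * lam x

variable {lam : ℕ → ℝ} {θ : ℝ}

lemma Reg.ev_ge (h : Reg lam θ) {κ : ℝ} (hκ : 0 < κ) :
    ∀ᶠ X : ℕ in atTop, (X : ℝ) ^ (-θ - κ) ≤ lam X := by
  have h1 := h.idx.eventually (lt_mem_nhds (show -θ - κ < -θ by linarith))
  filter_upwards [h1, tendsto_log_nat.eventually_gt_atTop 0, eventually_gt_atTop 0]
    with X a1 a2 a3
  have hX : (0 : ℝ) < X := by exact_mod_cast a3
  rw [lt_div_iff₀ a2] at a1
  rw [← Real.log_le_log_iff (Real.rpow_pos_of_pos hX _) (h.pos X), Real.log_rpow hX]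
  exact a1.le

lemma Reg.ev_le (h : Reg lam θ) {κ : ℝ} (hκ : 0 < κ) :
    ∀ᶠ X : ℕ in atTop, lam X ≤ (X : ℝ) ^ (-θ + κ) := by
  have h1 := h.idx.eventually (gt_mem_nhds (show -θ < -θ + κ by linarith))
  filter_upwards [h1, tendsto_log_nat.eventually_gt_atTop 0, eventually_gt_atTop 0]
    with X a1 a2 a3
  have hX : (0 : ℝ) < X := by exact_mod_cast a3
  rw [div_lt_iff₀ a2] at a1
  rw [← Real.log_le_log_iff (h.pos X) (Real.rpow_pos_of_pos hX _), Real.log_rpow hX]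
  exact a1.le

lemma Reg.ev_small (h : Reg lam θ) {κ : ℝ} (hκ : 0 < κ) :
    ∀ᶠ X : ℕ in atTop, lam X ≤ κ * Real.log X := by
  have h1 := h.small.eventually (gt_mem_nhds hκ)
  filter_upwards [h1, tendsto_log_nat.eventually_gt_atTop 0] with X a1 a2
  rw [div_lt_iff₀ a2] at a1
  exact a1.le

/-- the length of the long gaps is at most a small power larger than `X ^ θ` -/
lemma Reg.ev_len (h : Reg lam θ) (hθ : 0 ≤ θ) {κ : ℝ} (hκ : 0 < κ) :
    ∀ᶠ X : ℕ in atTop, Real.log X ^ 2 / lam X + 1 ≤ (X : ℝ) ^ (θ + κ) := by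
  filter_upwards [h.ev_ge (show 0 < κ / 4 by linarith), ev_log (κ := κ / 4) (C := 1)
    (by linarith) one_pos, ev_pow (κ := 1) (u := θ + κ) (v := θ + 3 * κ / 4) one_pos
    (by linarith) (by linarith), eventually_gt_atTop 1] with X a1 a2 a3 a4
  have hX : (0 : ℝ) < X := by positivity
  have hl0 : 0 ≤ Real.log X := Real.log_nonneg (by exact_mod_cast a4.le)
  have hp := h.pos X
  have b1 : Real.log X ^ 2 ≤ (X : ℝ) ^ (κ / 2) := by
    have : (X : ℝ) ^ (κ / 2) = ((X : ℝ) ^ (κ / 4)) ^ 2 := by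
      rw [sq, ← Real.rpow_add hX]; congr 1; ring
    rw [this]
    exact pow_le_pow_left₀ hl0 (by linarith) 2
  have b2 : Real.log X ^ 2 / lam X ≤ (X : ℝ) ^ (θ + 3 * κ / 4) := by
    rw [div_le_iff₀ hp]
    calc Real.log X ^ 2 ≤ (X : ℝ) ^ (κ / 2) := b1
      _ = (X : ℝ) ^ (θ + 3 * κ / 4) * (X : ℝ) ^ (-θ - κ / 4) := by
          rw [← Real.rpow_add hX]; congr 1; ring
      _ ≤ (X : ℝ) ^ (θ + 3 * κ / 4) * lam X :=
          mul_le_mul_of_nonneg_left a1 (Real.rpow_nonneg hX.le _)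
  linarith

end Pool.Agent.helper306_gaps
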