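import Pool.Agent.helper306_gaps.Upper

/-!
# Gaps in randomly thinned sets of primes: the final statement
-/

namespace Pool.Agent.helper306_gaps

open Finset MeasureTheory ProbabilityTheory Filter Topology Pool.Agent.helper306_cramer

/-- deleting each prime with a fixed probability is allowed -/
lemma reg_const {c : ℝ} (hc : 0 < c) : Reg (fun _ => c) 0 where
  pos := fun _ => hc
  idx := by
    rw [neg_zero]
    exact tendsto_const_nhds.div_atTop tendsto_log_nat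
  small := tendsto_const_nhds.div_atTop tendsto_log_nat
  slow := by
    intro ε hε
    refine ⟨1, one_pos, Eventually.of_forall fun x y _ _ => ?_⟩
    rw [sub_self, abs_zero]
    positivity

lemma ae_forall_eps {Ω : Type*} [MeasurableSpace Ω] {μ : Measure Ω} {P : ℝ → Ω → Prop} {c : ℝ}
    (hc : 0 < c) (hmono : ∀ ε ε' ω, ε ≤ ε' → P ε ω → P ε' ω)
    (h : ∀ ε, 0 < ε → ε < c → ∀ᵐ ω ∂μ, P ε ω) : ∀ᵐ ω ∂μ, ∀ ε, 0 < ε → P ε ω := by
  have h1 : ∀ n : ℕ, ∀ᵐ ω ∂μ, P (c / (n + 2)) ω := by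
    intro n
    refine h _ (by positivity) ?_
    rw [div_lt_iff₀ (by positivity)]
    nlinarith [(Nat.cast_nonneg n : (0 : ℝ) ≤ n)]
  rw [← ae_all_iff] at h1
  filter_upwards [h1] with ω hω ε hε
  obtain ⟨n, hn⟩ := exists_nat_gt (c / ε)
  refine hmono _ _ ω ?_ (hω n)
  rw [div_lt_iff₀ hε] at hn
  rw [div_le_iff₀ (by positivity)]
  nlinarith

theorem thinned_gaps : ∃ δ C : ℝ, 0 < δ ∧ δ < 1 ∧ 0 < C ∧
    ∀ (Ω : Type*) (_ : MeasurableSpace Ω) (μ : Measure Ω) (_ : IsProbabilityMeasure μ)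
      (θ : ℝ) (lam : ℕ → ℝ), 0 ≤ θ → θ < 1 → Reg lam θ →
      ∀ (Q : Ω → Set ℕ), (∀ ω, ∀ m ∈ Q ω, m.Prime) → (∀ m, MeasurableSet {ω | m ∈ Q ω}) →
      iIndepSet (fun m => {ω | m ∈ Q ω}) μ → ∀ p₀ : ℕ,
      (∀ p : ℕ, p.Prime → p₀ ≤ p → μ {ω | p ∉ Q ω} = ENNReal.ofReal (Real.exp (-lam p))) →
      ∀ᵐ ω ∂μ, ∀ ε : ℝ, 0 < ε →
        (∀ᶠ X : ℕ in atTop, ∃ q q', Consec (Q ω) q q' ∧ X < q ∧ (q' : ℝ) ≤ (1 + ε) * X ∧
          (1 - θ - ε) * Real.log X ^ 2 / lam X ≤ (q' : ℝ) - q) ∧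
        (∀ᶠ X : ℕ in atTop, ∃ q q', Consec (Q ω) q q' ∧ X < q ∧ (q' : ℝ) ≤ (1 + ε) * X ∧
          (1 - θ - ε) * Real.log X / lam X ≤ ((Po q q').card : ℝ)) ∧
        (∀ᶠ q : ℕ in atTop, ∀ q', Consec (Q ω) q q' →
          ((Po q q').card : ℝ) ≤ (1 - θ + ε) * Real.log q / lam q) ∧
        (1 - δ < θ → ∀ᶠ q : ℕ in atTop, ∀ q', Consec (Q ω) q q' →
          (q' : ℝ) - q ≤ C * Real.log q ^ 2 / lam q) := by
  obtain ⟨δ, C, hδ0, hδ1, hC, hord⟩ := order_gaps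
  refine ⟨δ, C, hδ0, hδ1, hC, ?_⟩
  intro Ω mΩ μ hμ θ lam hθ0 hθ1 h Q hpr hm hi p₀ hp'
  have hp : ∀ m : ℕ, m.Prime → p₀ ≤ m → μ {ω | m ∈ Q ω} = ENNReal.ofReal (pp lam m) := by
    intro m hmp hm0
    have h1 := hp' m hmp hm0
    have h2 : {ω | m ∉ Q ω} = {ω | m ∈ Q ω}ᶜ := rfl
    rw [h2, prob_compl_eq_one_sub (hm m)] at h1
    have h3 : μ {ω | m ∈ Q ω} ≤ 1 := prob_le_one
    have h4 : μ {ω | m ∈ Q ω} = 1 - ENNReal.ofReal (Real.exp (-lam m)) := by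
      rw [← h1, ENNReal.sub_sub_cancel ENNReal.one_ne_top h3]
    rw [h4]
    unfold pp
    rw [ENNReal.ofReal_sub _ (Real.exp_pos _).le, ENNReal.ofReal_one]
  have hRs : ∀ ω, Rs (fun m => {ω | m ∈ Q ω}) ω = Q ω := fun ω => rfl
  have e1 : ∀ᵐ ω ∂μ, ∀ ε : ℝ, 0 < ε → ∀ᶠ X : ℕ in atTop,
      (∃ q q', Consec (Q ω) q q' ∧ X < q ∧
        (q' : ℝ) ≤ (1 + ε) * X ∧ (1 - θ - ε) * Real.log X ^ 2 / lam X ≤ (q' : ℝ) - q) ∧
      (∃ q q', Consec (Q ω) q q' ∧ X < q ∧ (q' : ℝ) ≤ (1 + ε) * X ∧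
        (1 - θ - ε) * Real.log X / lam X ≤ ((Po q q').card : ℝ)) := by
    refine ae_forall_eps (c := 1 - θ) (by linarith) ?_ ?_
    · intro ε ε' ω hεε hX
      filter_upwards [hX, eventually_ge_atTop 1] with X hX' hX1
      have hX0 : (1 : ℝ) ≤ X := by exact_mod_cast hX1
      have hl : 0 ≤ Real.log X := Real.log_nonneg hX0
      have hpX := h.pos X
      obtain ⟨⟨q, q', a1, a2, a3, a4⟩, ⟨r, r', b1, b2, b3, b4⟩⟩ := hX'
      refine ⟨⟨q, q', a1, a2, a3.trans (by nlinarith), le_trans ?_ a4⟩,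
        ⟨r, r', b1, b2, b3.trans (by nlinarith), le_trans ?_ b4⟩⟩
      · apply div_le_div_of_nonneg_right _ hpX.le
        nlinarith [sq_nonneg (Real.log X)]
      · apply div_le_div_of_nonneg_right _ hpX.le
        nlinarith
    · intro ε hε hεθ
      exact long_gaps (μ := μ) h hθ0 hθ1 hm hi hp hpr hε hεθ
  have e2 : ∀ᵐ ω ∂μ, ∀ ε : ℝ, 0 < ε → ∀ᶠ q : ℕ in atTop, ∀ q', Consec (Q ω) q q' →
      ((Po q q').card : ℝ) ≤ (1 - θ + ε) * Real.log q / lam q := by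
    refine ae_forall_eps (c := 1) one_pos ?_ ?_
    · intro ε ε' ω hεε hX
      filter_upwards [hX, eventually_ge_atTop 1] with q hq hq1 q' hc
      have hq0 : (1 : ℝ) ≤ q := by exact_mod_cast hq1
      have hl : 0 ≤ Real.log q := Real.log_nonneg hq0
      have hpX := h.pos q
      refine (hq q' hc).trans ?_
      apply div_le_div_of_nonneg_right _ hpX.le
      nlinarith
    · intro ε hε hε1
      filter_upwards [few_lost (μ := μ) h hθ0 hθ1 hm hi hp hpr hε hε1.le] with ω hω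
      filter_upwards [hω] with q hq q' hc
      exact (hq q' hc).2
  have e3 : 1 - δ < θ → ∀ᵐ ω ∂μ, ∀ᶠ q : ℕ in atTop, ∀ q', Consec (Q ω) q q' →
      (q' : ℝ) - q ≤ C * Real.log q ^ 2 / lam q := fun hδθ =>
    hord Ω mΩ μ hμ lam θ h hδθ hθ1 _ hm hi p₀ hp hpr
  have e3' : ∀ᵐ ω ∂μ, (1 - δ < θ → ∀ᶠ q : ℕ in atTop, ∀ q', Consec (Q ω) q q' →
      (q' : ℝ) - q ≤ C * Real.log q ^ 2 / lam q) := by
    by_cases hδθ : 1 - δ < θ
    · filter_upwards [e3 hδθ] with ω hω _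
      exact hω
    · exact Eventually.of_forall fun ω h1 => absurd h1 hδθ
  filter_upwards [e1, e2, e3'] with ω w1 w2 w3 ε hε
  refine ⟨?_, ?_, w2 ε hε, w3⟩
  · filter_upwards [w1 ε hε] with X hX
    exact hX.1
  · filter_upwards [w1 ε hε] with X hX
    exact hX.2

end Pool.Agent.helper306_gaps
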