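import Pool.Agent.H295R3.Hoheisel
import Pool.Agent.helper306_gaps.BlocksNum

/-!
# Gaps in randomly thinned sets of primes
-/

namespace Pool.Agent.helper306_gaps

open Finset MeasureTheory ProbabilityTheory Filter Topology Pool.Agent.helper306_cramer

/-- `q < q'` are consecutive elements of `R` -/
def Consec (R : Set ℕ) (q q' : ℕ) : Prop :=
  q ∈ R ∧ q' ∈ R ∧ q < q' ∧ ∀ m, q < m → m < q' → m ∉ R

lemma surround {R : Set ℕ} {X a u v b Z : ℕ} (h1 : ∃ m ∈ R, X < m ∧ m ≤ a)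
    (h2 : ∃ m ∈ R, b < m ∧ m ≤ Z) (hau : a ≤ u) (huv : u ≤ v) (hvb : v ≤ b)
    (hR : ∀ m, u < m → m ≤ v → m ∉ R) :
    ∃ q q', Consec R q q' ∧ X < q ∧ q ≤ u ∧ v < q' ∧ q' ≤ Z := by
  classical
  obtain ⟨m1, hm1, hXm, hma⟩ := h1
  obtain ⟨m2, hm2, hbm, hmZ⟩ := h2
  set q := Nat.findGreatest (fun m => m ∈ R) u with hq
  have hqR : q ∈ R := Nat.findGreatest_spec (P := fun m => m ∈ R) (hma.trans hau) hm1
  have hq1 : m1 ≤ q := Nat.le_findGreatest (hma.trans hau) hm1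
  have hqu : q ≤ u := Nat.findGreatest_le u
  have hex : ∃ m, m ∈ R ∧ v < m := ⟨m2, hm2, by omega⟩
  set q' := Nat.find hex with hq'
  have hq'1 : q' ∈ R ∧ v < q' := Nat.find_spec hex
  have hq'2 : q' ≤ m2 := Nat.find_min' hex ⟨hm2, by omega⟩
  refine ⟨q, q', ⟨hqR, hq'1.1, by omega, ?_⟩, by omega, hqu, hq'1.2, by omega⟩
  intro m hqm hmq' hmR
  rcases Nat.lt_or_ge u m with h | h
  · rcases Nat.lt_or_ge v m with h' | h'
    · exact Nat.find_min hex hmq' ⟨hmR, h'⟩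
    · exact hR m h h' hmR
  · exact Nat.findGreatest_is_greatest (P := fun m => m ∈ R) hqm h hmR

variable {lam : ℕ → ℝ} {θ : ℝ}

/-- the windows have large weight -/
lemma sum_window (h : Reg lam θ) (hθ0 : 0 ≤ θ) (hθ1 : θ < 1) {c d : ℝ} (hc : 1 ≤ c)
    (hcd : c < d) :
    ∀ᶠ X : ℕ in atTop, 2 * Real.log X ≤ ∑ m ∈ Pc ⌊c * X⌋₊ ⌊d * X⌋₊, lam m := by
  set κ := (1 - θ) / 8 with hκ
  have hκ0 : 0 < κ := by rw [hκ]; linarith
  obtain ⟨N, hN⟩ := eventually_atTop.mp (h.ev_ge hκ0)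
  have hd0 : 0 < d := by linarith
  filter_upwards [window_bounds (c := c) (d := d) (κ := (d - c) / 2) (by linarith) hcd.le
      (by linarith), ev_log (κ := κ) (C := 2) hκ0 (by norm_num),
    ev_pow (κ := (d - c) / 2 * d ^ (-θ - κ)) (u := 1 - θ - 2 * κ) (v := κ)
      (by have := Real.rpow_pos_of_pos hd0 (-θ - κ); have : 0 < (d - c) / 2 := by linarith
          positivity) hκ0.le (by rw [hκ]; linarith),
    eventually_ge_atTop N, eventually_gt_atTop 1, tendsto_log_nat.eventually_ge_atTop 1]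
    with X a1 a2 a3 a4 a5 a6
  have hX0 : (0 : ℝ) < X := by positivity
  have h1 : ∀ m ∈ Pc ⌊c * X⌋₊ ⌊d * X⌋₊, (d * X) ^ (-θ - κ) ≤ lam m := by
    intro m hm
    rw [mem_Pc] at hm
    have hXa : X ≤ ⌊c * X⌋₊ := Nat.le_floor (by nlinarith)
    have hmd : (m : ℝ) ≤ d * X := (Nat.cast_le.mpr hm.1.2).trans (Nat.floor_le (by positivity))
    have hm0 : (0 : ℝ) < m := by
      have : 0 < m := by omega
      exact_mod_cast this
    refine le_trans ?_ (hN m (by omega))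
    exact Real.rpow_le_rpow_of_nonpos hm0 hmd (by linarith)
  have h2 : ((Pc ⌊c * X⌋₊ ⌊d * X⌋₊).card : ℝ) * (d * X) ^ (-θ - κ)
      ≤ ∑ m ∈ Pc ⌊c * X⌋₊ ⌊d * X⌋₊, lam m := by
    rw [← nsmul_eq_mul, ← Finset.sum_const]
    exact Finset.sum_le_sum h1
  refine le_trans ?_ h2
  have h3 : (X : ℝ) ^ (1 - κ) ≤ X / Real.log X := by
    rw [le_div_iff₀ (by linarith)]
    calc (X : ℝ) ^ (1 - κ) * Real.log X ≤ (X : ℝ) ^ (1 - κ) * (X : ℝ) ^ κ :=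
          mul_le_mul_of_nonneg_left (by linarith) (Real.rpow_nonneg hX0.le _)
      _ = X := by
          rw [← Real.rpow_add hX0]
          have : 1 - κ + κ = 1 := by ring
          rw [this, Real.rpow_one]
  have h4 : (d - c) / 2 * (X : ℝ) ^ (1 - κ) ≤ (Pc ⌊c * X⌋₊ ⌊d * X⌋₊).card := by
    calc (d - c) / 2 * (X : ℝ) ^ (1 - κ) ≤ (d - c) / 2 * (X / Real.log X) :=
          mul_le_mul_of_nonneg_left h3 (by linarith)
      _ = (d - c - (d - c) / 2) * (X / Real.log X) := by ring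
      _ ≤ _ := a1.1
  have h5 : (d * (X : ℝ)) ^ (-θ - κ) = d ^ (-θ - κ) * (X : ℝ) ^ (-θ - κ) :=
    Real.mul_rpow hd0.le hX0.le
  calc 2 * Real.log X ≤ (X : ℝ) ^ κ + 2 := by linarith
    _ ≤ (d - c) / 2 * d ^ (-θ - κ) * (X : ℝ) ^ (1 - θ - 2 * κ) := a3
    _ = (d - c) / 2 * (X : ℝ) ^ (1 - κ) * (d ^ (-θ - κ) * (X : ℝ) ^ (-θ - κ)) := by
        have : (X : ℝ) ^ (1 - θ - 2 * κ) = (X : ℝ) ^ (1 - κ) * (X : ℝ) ^ (-θ - κ) := by
          rw [← Real.rpow_add hX0]; congr 1; ring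
        rw [this]; ring
    _ ≤ (Pc ⌊c * X⌋₊ ⌊d * X⌋₊).card * (d * (X : ℝ)) ^ (-θ - κ) := by
        rw [h5]
        exact mul_le_mul_of_nonneg_right h4 (by positivity)

variable {Ω : Type*} [MeasurableSpace Ω] {μ : Measure Ω} [IsProbabilityMeasure μ]

/-- every window is met -/
lemma ae_window (h : Reg lam θ) (hθ0 : 0 ≤ θ) (hθ1 : θ < 1) {E : ℕ → Set Ω}
    (hm : ∀ m, MeasurableSet (E m)) (hi : iIndepSet E μ) {q₀ : ℕ}
    (hp : ∀ m : ℕ, m.Prime → q₀ ≤ m → μ (E m) = ENNReal.ofReal (pp lam m))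
    {c d : ℝ} (hc : 1 ≤ c) (hcd : c < d) :
    ∀ᵐ ω ∂μ, ∀ᶠ X : ℕ in atTop, ∃ m ∈ Rs E ω, ⌊c * X⌋₊ < m ∧ m ≤ ⌊d * X⌋₊ := by
  have h1 := ae_meet (μ := μ) h.pos hm hi (J := fun X : ℕ => Pc ⌊c * X⌋₊ ⌊d * X⌋₊) (by
    filter_upwards [sum_window h hθ0 hθ1 hc hcd, eventually_ge_atTop q₀] with X a1 a2
    refine ⟨fun m hmm => ?_, a1⟩
    rw [mem_Pc] at hmm
    refine hp m hmm.2 ?_
    have hXa : X ≤ ⌊c * X⌋₊ := Nat.le_floor (by
      have : (0 : ℝ) ≤ X := Nat.cast_nonneg _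
      nlinarith)
    omega)
  filter_upwards [h1] with ω hω
  filter_upwards [hω] with X ⟨m, hmJ, hmE⟩
  rw [mem_Pc] at hmJ
  exact ⟨m, hmE, hmJ.1.1, hmJ.1.2⟩

/-- long gaps -/
theorem long_gaps (h : Reg lam θ) (hθ0 : 0 ≤ θ) (hθ1 : θ < 1) {E : ℕ → Set Ω}
    (hm : ∀ m, MeasurableSet (E m)) (hi : iIndepSet E μ) {q₀ : ℕ}
    (hp : ∀ m : ℕ, m.Prime → q₀ ≤ m → μ (E m) = ENNReal.ofReal (pp lam m))
    (hpr : ∀ ω, ∀ m, ω ∈ E m → m.Prime) {ε : ℝ} (hε : 0 < ε) (hεθ : ε < 1 - θ) :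
    ∀ᵐ ω ∂μ, ∀ᶠ X : ℕ in atTop, (∃ q q', Consec (Rs E ω) q q' ∧ X < q ∧
        (q' : ℝ) ≤ (1 + ε) * X ∧ (1 - θ - ε) * Real.log X ^ 2 / lam X ≤ (q' : ℝ) - q) ∧
      (∃ q q', Consec (Rs E ω) q q' ∧ X < q ∧ (q' : ℝ) ≤ (1 + ε) * X ∧
        (1 - θ - ε) * Real.log X / lam X ≤ ((Po q q').card : ℝ)) := by
  classical
  obtain ⟨η0, hη0, hslow⟩ := h.slow (ε / 20) (by positivity)
  set η := min η0 ε / 3 with hη
  have hmin : 0 < min η0 ε := lt_min hη0 hε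
  have hηpos : 0 < η := by rw [hη]; linarith
  have hη1 : 3 * η ≤ η0 := by
    have := min_le_left η0 ε
    rw [hη]; linarith
  have hη2 : 3 * η ≤ ε := by
    have := min_le_right η0 ε
    rw [hη]; linarith
  have hslow' : ∀ᶠ x : ℕ in atTop, ∀ y : ℕ, x ≤ y → (y : ℝ) ≤ (1 + 3 * η) * x →
      |lam y - lam x| ≤ ε / 20 * lam x := by
    filter_upwards [hslow] with x hx y hxy hy
    refine hx y hxy (hy.trans ?_)
    have : (0 : ℝ) ≤ x := Nat.cast_nonneg _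
    nlinarith
  -- the families
  have hbl := blocks_len h hθ0 hε hεθ hηpos hslow'
  have hbl' : ∀ᶠ X : ℕ in atTop, ∃ w : ℕ × Finset ℕ, 0 < w.1 ∧
      (1 - θ - ε) * Real.log X ^ 2 / lam X ≤ w.1 ∧
      (∀ j ∈ w.2, ⌊(1 + η) * X⌋₊ + (j + 1) * w.1 ≤ ⌊(1 + 2 * η) * X⌋₊) ∧
      (∀ j ∈ w.2, ∑ m ∈ Ij ⌊(1 + η) * X⌋₊ w.1 j, lam m ≤ (1 - θ - ε / 2) * Real.log X) ∧
      2 * Real.log X ≤ w.2.card * Real.exp (-((1 - θ - ε / 2) * Real.log X)) := by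
    filter_upwards [hbl] with X hX
    obtain ⟨L, s, hs⟩ := hX
    exact ⟨(L, s), hs⟩
  obtain ⟨f, hf⟩ := hbl'.choice
  have hbn := blocks_num h hθ0 hε hεθ hηpos hslow'
  have hbn' : ∀ᶠ X : ℕ in atTop, ∃ w : ℕ × Finset ℕ, 0 < w.1 ∧
      (1 - θ - ε) * Real.log X / lam X ≤ w.1 ∧
      (∀ j ∈ w.2, Nat.primeCounting ⌊(1 + η) * X⌋₊ + (j + 1) * w.1
        ≤ Nat.primeCounting ⌊(1 + 2 * η) * X⌋₊) ∧
      (∀ j ∈ w.2, ∑ p ∈ Bj (Nat.primeCounting ⌊(1 + η) * X⌋₊) w.1 j, lam p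
        ≤ (1 - θ - ε / 2) * Real.log X) ∧
      2 * Real.log X ≤ w.2.card * Real.exp (-((1 - θ - ε / 2) * Real.log X)) := by
    filter_upwards [hbn] with X hX
    obtain ⟨L, s, hs⟩ := hX
    exact ⟨(L, s), hs⟩
  obtain ⟨g, hg⟩ := hbn'.choice
  have hXa : ∀ X : ℕ, X ≤ ⌊(1 + η) * X⌋₊ := fun X => Nat.le_floor (by
    have : (0 : ℝ) ≤ X := Nat.cast_nonneg _
    nlinarith)
  have e1 := ae_block (μ := μ) h.pos hm hi (s := fun X => (f X).2)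
    (I := fun X j => Ij ⌊(1 + η) * X⌋₊ (f X).1 j)
    (c := fun X => (1 - θ - ε / 2) * Real.log X) (by
      filter_upwards [hf, eventually_ge_atTop q₀] with X hX hXq
      refine ⟨fun i _ j _ hij => Ij_disj _ _ hij, fun i hi' m hmm => ?_, hX.2.2.2.1, hX.2.2.2.2⟩
      unfold Ij at hmm
      rw [mem_Pc] at hmm
      refine hp m hmm.2 ?_
      have := hXa X
      have h0 : 0 ≤ i * (f X).1 := Nat.zero_le _
      omega)
  have e2 := ae_block (μ := μ) h.pos hm hi (s := fun X => (g X).2)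
    (I := fun X j => Bj (Nat.primeCounting ⌊(1 + η) * X⌋₊) (g X).1 j)
    (c := fun X => (1 - θ - ε / 2) * Real.log X) (by
      filter_upwards [hg, eventually_ge_atTop q₀] with X hX hXq
      refine ⟨fun i _ j _ hij => Bj_disj _ _ hij, fun i hi' m hmm => ?_, hX.2.2.2.1, hX.2.2.2.2⟩
      refine hp m (Bj_prime hmm) ?_
      rw [mem_Bj] at hmm
      obtain ⟨k, hk, rfl⟩ := hmm
      have h1 : ⌊(1 + η) * (X : ℝ)⌋₊ < Nat.nth Nat.Prime k := nth_gt (by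
        have : 0 ≤ i * (g X).1 := Nat.zero_le _
        omega)
      have := hXa X
      omega)
  have e3 := ae_window (μ := μ) h hθ0 hθ1 hm hi hp (c := 1) (d := 1 + η) le_rfl (by linarith)
  have e4 := ae_window (μ := μ) h hθ0 hθ1 hm hi hp (c := 1 + 2 * η) (d := 1 + 3 * η)
    (by linarith) (by linarith)
  filter_upwards [e1, e2, e3, e4] with ω w1 w2 w3 w4
  filter_upwards [w1, w2, w3, w4, hf, hg] with X x1 x2 x3 x4 hfX hgX
  have hone : ⌊(1 : ℝ) * X⌋₊ = X := by rw [one_mul, Nat.floor_natCast]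
  rw [hone] at x3
  have hZ : ∀ q' : ℕ, q' ≤ ⌊(1 + 3 * η) * X⌋₊ → (q' : ℝ) ≤ (1 + ε) * X := by
    intro q' hq'
    have h1 : (q' : ℝ) ≤ (1 + 3 * η) * X :=
      (Nat.cast_le.mpr hq').trans (Nat.floor_le (by positivity))
    have : (0 : ℝ) ≤ X := Nat.cast_nonneg _
    nlinarith
  constructor
  · obtain ⟨j, hj, hjE⟩ := x1
    obtain ⟨hL0, hL1, hL2, _, _⟩ := hfX
    have hjb := hL2 j hj
    have hstep : (j + 1) * (f X).1 = j * (f X).1 + (f X).1 := by ring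
    obtain ⟨q, q', hc, hXq, hqu, hvq, hqZ⟩ := surround (R := Rs E ω) (X := X)
      (a := ⌊(1 + η) * X⌋₊) (u := ⌊(1 + η) * X⌋₊ + j * (f X).1)
      (v := ⌊(1 + η) * X⌋₊ + (j + 1) * (f X).1) (b := ⌊(1 + 2 * η) * X⌋₊)
      (Z := ⌊(1 + 3 * η) * X⌋₊) x3 x4 (by omega) (by omega) hjb (by
        intro m h1 h2 hmE
        exact hjE m (by unfold Ij; rw [mem_Pc]; exact ⟨⟨h1, h2⟩, hpr ω m hmE⟩) hmE)
    refine ⟨q, q', hc, hXq, hZ q' hqZ, hL1.trans ?_⟩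
    have h3 : q + (f X).1 ≤ q' := by omega
    have h4 : (q : ℝ) + (f X).1 ≤ q' := by exact_mod_cast h3
    linarith
  · obtain ⟨j, hj, hjE⟩ := x2
    obtain ⟨hm0, hm1, hm2, _, _⟩ := hgX
    have hjb := hm2 j hj
    set P := Nat.primeCounting ⌊(1 + η) * (X : ℝ)⌋₊ with hP
    have hstep : (j + 1) * (g X).1 = j * (g X).1 + (g X).1 := by ring
    have hi1 : ⌊(1 + η) * (X : ℝ)⌋₊ < Nat.nth Nat.Prime (P + j * (g X).1) :=
      nth_gt (by omega)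
    have hi2 : Nat.nth Nat.Prime (P + (j + 1) * (g X).1 - 1) ≤ ⌊(1 + 2 * η) * (X : ℝ)⌋₊ :=
      nth_le (by omega)
    have hmono : Nat.nth Nat.Prime (P + j * (g X).1)
        ≤ Nat.nth Nat.Prime (P + (j + 1) * (g X).1 - 1) :=
      Nat.nth_monotone Nat.infinite_setOf_prime (by omega)
    obtain ⟨q, q', hc, hXq, hqu, hvq, hqZ⟩ := surround (R := Rs E ω) (X := X)
      (a := ⌊(1 + η) * X⌋₊) (u := Nat.nth Nat.Prime (P + j * (g X).1) - 1)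
      (v := Nat.nth Nat.Prime (P + (j + 1) * (g X).1 - 1)) (b := ⌊(1 + 2 * η) * X⌋₊)
      (Z := ⌊(1 + 3 * η) * X⌋₊) x3 x4 (by omega) (by omega) hi2 (by
        intro m h1 h2 hmE
        have hmp : m.Prime := hpr ω m hmE
        have hmc : Nat.nth Nat.Prime (Nat.count Nat.Prime m) = m := Nat.nth_count hmp
        refine hjE m ?_ hmE
        rw [mem_Bj]
        refine ⟨Nat.count Nat.Prime m, ⟨?_, ?_⟩, hmc⟩
        · have h5 : Nat.nth Nat.Prime (P + j * (g X).1) ≤ m := by omega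
          rw [← hmc] at h5
          exact (Nat.nth_le_nth Nat.infinite_setOf_prime).mp h5
        · rw [← hmc] at h2
          have := (Nat.nth_le_nth Nat.infinite_setOf_prime).mp h2
          omega)
    refine ⟨q, q', hc, hXq, hZ q' hqZ, hm1.trans ?_⟩
    have h6 : Bj P (g X).1 j ⊆ Po q q' := by
      intro p hpp
      have hp1 := Bj_prime hpp
      rw [mem_Bj] at hpp
      obtain ⟨k, hk, rfl⟩ := hpp
      rw [mem_Po]
      have h7 : Nat.nth Nat.Prime (P + j * (g X).1) ≤ Nat.nth Nat.Prime k :=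
        Nat.nth_monotone Nat.infinite_setOf_prime hk.1
      have h8 : Nat.nth Nat.Prime k ≤ Nat.nth Nat.Prime (P + (j + 1) * (g X).1 - 1) :=
        Nat.nth_monotone Nat.infinite_setOf_prime (by omega)
      exact ⟨⟨by omega, by omega⟩, hp1⟩
    have h9 := Finset.card_le_card h6
    rw [card_Bj] at h9
    exact_mod_cast h9

end Pool.Agent.helper306_gaps
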