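import Pool.Agent.helper306_cramer.Link

/-!
# Randomly thinned sets: probabilities of finite events
-/

namespace Pool.Agent.helper306_gaps

open Finset MeasureTheory ProbabilityTheory Filter Pool.Agent.helper306_cramer

variable {Ω : Type*} [MeasurableSpace Ω] {μ : Measure Ω} [IsProbabilityMeasure μ]

/-- the probability of `m ∈ Q`, cut off outside of `J` -/
noncomputable def pp (lam : ℕ → ℝ) (m : ℕ) : ℝ := 1 - Real.exp (-lam m)

lemma pp_nonneg {lam : ℕ → ℝ} (h : ∀ m, 0 < lam m) (m : ℕ) : 0 ≤ pp lam m := by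
  unfold pp
  have := Real.exp_le_one_iff.mpr (show -lam m ≤ 0 by linarith [h m])
  linarith

lemma pp_le_one (lam : ℕ → ℝ) (m : ℕ) : pp lam m ≤ 1 := by
  unfold pp
  linarith [Real.exp_pos (-lam m)]

/-- all elements of `J` are missing -/
lemma P_del {lam : ℕ → ℝ} (hl : ∀ m, 0 < lam m) {E : ℕ → Set Ω}
    (hm : ∀ m, MeasurableSet (E m)) (hi : iIndepSet E μ) {J : Finset ℕ}
    (hp : ∀ m ∈ J, μ (E m) = ENNReal.ofReal (pp lam m)) :
    μ {ω | ∀ m ∈ J, ω ∉ E m} = ENNReal.ofReal (Real.exp (-∑ m ∈ J, lam m)) := by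
  classical
  have h := measure_Rf hm hi (pp_nonneg hl) (pp_le_one lam) hp (fun A => A = ∅)
  have h1 : {ω | ∀ m ∈ J, ω ∉ E m} = {ω | Rf J (Rs E ω) = ∅} := by
    ext ω
    simp only [Set.mem_setOf_eq, Finset.eq_empty_iff_forall_notMem, mem_Rf, not_and]
    rfl
  rw [h1, h, Ex_indicator (pp lam) (Finset.empty_subset J)]
  congr 1
  unfold wt
  rw [← Finset.sum_neg_distrib, Real.exp_sum]
  refine Finset.prod_congr rfl (fun m _ => ?_)
  simp [pp]

/-- `q` is present and all elements of `J` are missing -/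
lemma P_one {lam : ℕ → ℝ} (hl : ∀ m, 0 < lam m) {E : ℕ → Set Ω}
    (hm : ∀ m, MeasurableSet (E m)) (hi : iIndepSet E μ) {J : Finset ℕ} {q : ℕ} (hq : q ∉ J)
    (hp : ∀ m ∈ insert q J, μ (E m) = ENNReal.ofReal (pp lam m)) :
    μ {ω | ω ∈ E q ∧ ∀ m ∈ J, ω ∉ E m}
      ≤ ENNReal.ofReal (lam q * Real.exp (-∑ m ∈ J, lam m)) := by
  classical
  have h := measure_Rf hm hi (pp_nonneg hl) (pp_le_one lam) hp (fun A => A = {q})
  have h1 : {ω | ω ∈ E q ∧ ∀ m ∈ J, ω ∉ E m} = {ω | Rf (insert q J) (Rs E ω) = {q}} := by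
    ext ω
    simp only [Set.mem_setOf_eq, Finset.ext_iff, mem_Rf, Finset.mem_singleton, Finset.mem_insert]
    constructor
    · rintro ⟨h1, h2⟩ a
      constructor
      · rintro ⟨h3 | h3, h4⟩
        · exact h3
        · exact absurd h4 (h2 a h3)
      · rintro rfl
        exact ⟨Or.inl rfl, h1⟩
    · intro h2
      refine ⟨((h2 q).mpr rfl).2, fun m hmJ hmE => ?_⟩
      have := (h2 m).mp ⟨Or.inr hmJ, hmE⟩
      subst this
      exact hq hmJ
  rw [h1, h, Ex_indicator (pp lam) (by simp)]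
  apply ENNReal.ofReal_le_ofReal
  unfold wt
  rw [Finset.prod_insert hq, if_pos (by simp)]
  have h3 : ∏ m ∈ J, (if m ∈ ({q} : Finset ℕ) then pp lam m else 1 - pp lam m)
      = Real.exp (-∑ m ∈ J, lam m) := by
    rw [← Finset.sum_neg_distrib, Real.exp_sum]
    refine Finset.prod_congr rfl (fun m hmJ => ?_)
    rw [if_neg (by rw [Finset.mem_singleton]; rintro rfl; exact hq hmJ)]
    simp [pp]
  rw [h3]
  refine mul_le_mul_of_nonneg_right ?_ (Real.exp_pos _).le
  unfold pp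
  linarith [Real.add_one_le_exp (-lam q)]

/-- none of the disjoint blocks is missing -/
lemma P_none {lam : ℕ → ℝ} (hl : ∀ m, 0 < lam m) {E : ℕ → Set Ω}
    (hm : ∀ m, MeasurableSet (E m)) (hi : iIndepSet E μ) {s : Finset ℕ} {I : ℕ → Finset ℕ}
    (hd : (s : Set ℕ).PairwiseDisjoint I)
    (hp : ∀ i ∈ s, ∀ m ∈ I i, μ (E m) = ENNReal.ofReal (pp lam m)) {c : ℝ}
    (hc : ∀ i ∈ s, ∑ m ∈ I i, lam m ≤ c) :
    μ {ω | ∀ i ∈ s, ∃ m ∈ I i, ω ∈ E m}
      ≤ ENNReal.ofReal (Real.exp (-(s.card * Real.exp (-c)))) := by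
  classical
  set J := s.biUnion I with hJ
  have hpJ : ∀ m ∈ J, μ (E m) = ENNReal.ofReal (pp lam m) := by
    intro m hmJ
    rw [hJ, Finset.mem_biUnion] at hmJ
    obtain ⟨i, his, hmi⟩ := hmJ
    exact hp i his m hmi
  have h := measure_Rf hm hi (pp_nonneg hl) (pp_le_one lam) hpJ
    (fun A => ∀ i ∈ s, (A ∩ I i).Nonempty)
  have h1 : {ω | ∀ i ∈ s, ∃ m ∈ I i, ω ∈ E m}
      = {ω | ∀ i ∈ s, (Rf J (Rs E ω) ∩ I i).Nonempty} := by
    ext ω
    simp only [Set.mem_setOf_eq]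
    refine forall_congr' fun i => forall_congr' fun his => ?_
    constructor
    · rintro ⟨m, hmi, hmE⟩
      refine ⟨m, Finset.mem_inter.mpr ⟨mem_Rf.mpr ⟨?_, hmE⟩, hmi⟩⟩
      rw [hJ, Finset.mem_biUnion]
      exact ⟨i, his, hmi⟩
    · rintro ⟨m, hmm⟩
      rw [Finset.mem_inter, mem_Rf] at hmm
      exact ⟨m, hmm.2, hmm.1.2⟩
  rw [h1, h]
  apply ENNReal.ofReal_le_ofReal
  have h2 : Ex (pp lam) J (fun A => if ∀ i ∈ s, (A ∩ I i).Nonempty then (1 : ℝ) else 0)
      = Ex (pp lam) J (fun A => ∏ i ∈ s, (fun B : Finset ℕ => if B.Nonempty then (1 : ℝ) else 0)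
        (A ∩ I i)) := by
    refine Ex_congr (fun A _ => ?_)
    by_cases hA : ∀ i ∈ s, (A ∩ I i).Nonempty
    · rw [if_pos hA]
      symm
      refine Finset.prod_eq_one (fun i his => ?_)
      simp [hA i his]
    · rw [if_neg hA]
      push Not at hA
      obtain ⟨i, his, hi0⟩ := hA
      symm
      refine Finset.prod_eq_zero his ?_
      simp [hi0]
  rw [h2, Ex_prod (pp lam) s I hd (fun i his => Finset.subset_biUnion_of_mem I his)
    (fun _ B => if B.Nonempty then (1 : ℝ) else 0)]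
  have h3 : ∀ i ∈ s, Ex (pp lam) (I i) (fun B => if B.Nonempty then (1 : ℝ) else 0)
      ≤ Real.exp (-Real.exp (-c)) := by
    intro i his
    have h4 : Ex (pp lam) (I i) (fun B => if B.Nonempty then (1 : ℝ) else 0)
        = 1 - Real.exp (-∑ m ∈ I i, lam m) := by
      have h5 : Ex (pp lam) (I i) (fun B => if B.Nonempty then (1 : ℝ) else 0)
          = Ex (pp lam) (I i) (fun _ => (1 : ℝ)) - Ex (pp lam) (I i)
            (fun B => if B = ∅ then (1 : ℝ) else 0) := by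
        rw [← Ex_sub]
        refine Ex_congr (fun B _ => ?_)
        by_cases hB : B = ∅
        · simp [hB]
        · simp [hB, Finset.nonempty_iff_ne_empty]
      rw [h5, Ex_const, Ex_indicator (pp lam) (Finset.empty_subset _)]
      congr 1
      unfold wt
      rw [← Finset.sum_neg_distrib, Real.exp_sum]
      refine Finset.prod_congr rfl (fun m _ => ?_)
      simp [pp]
    rw [h4]
    have h6 : Real.exp (-c) ≤ Real.exp (-∑ m ∈ I i, lam m) :=
      Real.exp_le_exp.mpr (by linarith [hc i his])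
    linarith [Real.add_one_le_exp (-Real.exp (-c))]
  have h7 : ∀ i ∈ s, 0 ≤ Ex (pp lam) (I i) (fun B => if B.Nonempty then (1 : ℝ) else 0) := by
    intro i _
    refine Ex_nonneg (pp_nonneg hl) (pp_le_one lam) (fun B _ => ?_)
    split_ifs <;> norm_num
  calc ∏ i ∈ s, Ex (pp lam) (I i) (fun B => if B.Nonempty then (1 : ℝ) else 0)
      ≤ ∏ _i ∈ s, Real.exp (-Real.exp (-c)) := Finset.prod_le_prod h7 h3
    _ = Real.exp (-(s.card * Real.exp (-c))) := by
        rw [Finset.prod_const, ← Real.exp_nat_mul]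
        congr 1
        ring

end Pool.Agent.helper306_gaps
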