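import Pool.Agent.helper306_gaps.Main

/-!
# Gaps in randomly thinned sets of primes: upper bounds
-/

namespace Pool.Agent.helper306_gaps

open Finset MeasureTheory ProbabilityTheory Filter Topology Pool.Agent.helper306_cramer

variable {lam : ℕ → ℝ} {θ : ℝ}
variable {Ω : Type*} [MeasurableSpace Ω] {μ : Measure Ω} [IsProbabilityMeasure μ]

lemma summable_T (h : Reg lam θ) {ε : ℝ} (hε : 0 < ε) :
    Summable fun q : ℕ => lam q * Real.exp (-((1 - θ + ε) * Real.log q)) := by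
  have h1 : Summable fun q : ℕ => (q : ℝ) ^ (-1 - ε / 2) :=
    Real.summable_nat_rpow.mpr (by linarith)
  refine Summable.of_norm_bounded_eventually_nat h1 ?_
  filter_upwards [h.ev_le (show 0 < ε / 2 by linarith), eventually_gt_atTop 0] with q a1 a2
  have hq : (0 : ℝ) < q := by exact_mod_cast a2
  have hp := h.pos q
  rw [Real.norm_of_nonneg (by positivity)]
  have h3 : Real.exp (-((1 - θ + ε) * Real.log q)) = (q : ℝ) ^ (-(1 - θ + ε)) := by
    rw [Real.rpow_def_of_pos hq]; congr 1; ring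
  rw [h3]
  calc lam q * (q : ℝ) ^ (-(1 - θ + ε)) ≤ (q : ℝ) ^ (-θ + ε / 2) * (q : ℝ) ^ (-(1 - θ + ε)) :=
        mul_le_mul_of_nonneg_right a1 (Real.rpow_nonneg hq.le _)
    _ = (q : ℝ) ^ (-1 - ε / 2) := by
        rw [← Real.rpow_add hq]; congr 1; ring

/-- number of primes in a gap -/
theorem few_lost (h : Reg lam θ) (hθ0 : 0 ≤ θ) (hθ1 : θ < 1) {E : ℕ → Set Ω}
    (hm : ∀ m, MeasurableSet (E m)) (hi : iIndepSet E μ) {q₀ : ℕ}
    (hp : ∀ m : ℕ, m.Prime → q₀ ≤ m → μ (E m) = ENNReal.ofReal (pp lam m))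
    (hpr : ∀ ω, ∀ m, ω ∈ E m → m.Prime) {ε : ℝ} (hε : 0 < ε) (hε1 : ε ≤ 1) :
    ∀ᵐ ω ∂μ, ∀ᶠ q : ℕ in atTop, ∀ q', Consec (Rs E ω) q q' →
      (q' : ℝ) ≤ (1 + ε) * q ∧ ((Po q q').card : ℝ) ≤ (1 - θ + ε) * Real.log q / lam q := by
  obtain ⟨η0, hη0, hslow⟩ := h.slow (ε / 4) (by positivity)
  set η := min η0 ε with hη
  have hηpos : 0 < η := lt_min hη0 hε
  have e1 := ae_lost (μ := μ) h.pos hm hi hp hpr (T := fun q => (1 - θ + ε / 4) * Real.log q)
    (summable_T h (by positivity))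
  have e2 := ae_window (μ := μ) h hθ0 hθ1 hm hi hp (c := 1) (d := 1 + η) le_rfl (by linarith)
  filter_upwards [e1, e2] with ω w1 w2
  filter_upwards [w1, w2, hslow, eventually_gt_atTop 1] with q x1 x2 x3 x4 q' hc
  have hone : ⌊(1 : ℝ) * q⌋₊ = q := by rw [one_mul, Nat.floor_natCast]
  rw [hone] at x2
  have hq0 : (0 : ℝ) < q := by positivity
  have hl : 0 < Real.log q := Real.log_pos (by exact_mod_cast x4)
  have hp0 := h.pos q
  obtain ⟨m, hmR, hqm, hmu⟩ := x2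
  have hq' : q' ≤ m := by
    by_contra hcon
    exact hc.2.2.2 m hqm (by omega) hmR
  have hmle : (m : ℝ) ≤ (1 + η) * q := (Nat.cast_le.mpr hmu).trans (Nat.floor_le (by positivity))
  have hq'le : (q' : ℝ) ≤ (1 + η) * q := (Nat.cast_le.mpr hq').trans hmle
  have hη1 : η ≤ ε := min_le_right _ _
  have hη2 : η ≤ η0 := min_le_left _ _
  refine ⟨by nlinarith, ?_⟩
  have h1 := x1 hc.1 q' (fun m h1 h2 => hc.2.2.2 m h1 h2)
  have h2 : ((Po q q').card : ℝ) * ((1 - ε / 4) * lam q) ≤ ∑ m ∈ Po q q', lam m := by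
    rw [← nsmul_eq_mul, ← Finset.sum_const]
    refine Finset.sum_le_sum (fun m hmm => ?_)
    rw [mem_Po] at hmm
    have h3 : (m : ℝ) ≤ q' := by exact_mod_cast hmm.1.2.le
    have h4 := (abs_le.mp (x3 m hmm.1.1.le (by nlinarith))).1
    linarith
  rw [le_div_iff₀ hp0]
  have h3 : ((Po q q').card : ℝ) * lam q * (1 - ε / 4) ≤ (1 - θ + ε / 4) * Real.log q := by
    calc ((Po q q').card : ℝ) * lam q * (1 - ε / 4)
        = ((Po q q').card : ℝ) * ((1 - ε / 4) * lam q) := by ring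
      _ ≤ _ := h2.trans h1
  have h4 : (1 - θ + ε / 4) ≤ (1 - θ + ε) * (1 - ε / 4) := by nlinarith
  have h5 : 0 < 1 - ε / 4 := by linarith
  have h6 : ((Po q q').card : ℝ) * lam q * (1 - ε / 4)
      ≤ (1 - θ + ε) * Real.log q * (1 - ε / 4) := by
    refine h3.trans ?_
    have := mul_le_mul_of_nonneg_right h4 hl.le
    linarith
  exact le_of_mul_le_mul_right h6 h5

/-- the order of the gaps for sparse sets -/
theorem order_gaps : ∃ δ C : ℝ, 0 < δ ∧ δ < 1 ∧ 0 < C ∧ ∀ (Ω : Type*) (_ : MeasurableSpace Ω)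
    (μ : Measure Ω) (_ : IsProbabilityMeasure μ) (lam : ℕ → ℝ) (θ : ℝ), Reg lam θ → 1 - δ < θ →
    θ < 1 → ∀ (E : ℕ → Set Ω), (∀ m, MeasurableSet (E m)) → iIndepSet E μ → ∀ q₀ : ℕ,
    (∀ m : ℕ, m.Prime → q₀ ≤ m → μ (E m) = ENNReal.ofReal (pp lam m)) →
    (∀ ω, ∀ m, ω ∈ E m → m.Prime) →
    ∀ᵐ ω ∂μ, ∀ᶠ q : ℕ in atTop, ∀ q', Consec (Rs E ω) q q' →
      (q' : ℝ) - q ≤ C * Real.log q ^ 2 / lam q := by
  obtain ⟨δ, η, hδ0, hδ1, hη, X₀, hX₀, hH⟩ := Pool.Agent.H295R3.D.hoheisel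
  refine ⟨δ, 2 / η + 2, hδ0, hδ1, by positivity, ?_⟩
  intro Ω _ μ _ lam θ h hθδ hθ1 E hm hi q₀ hp hpr
  have hθ0 : 0 ≤ θ := by linarith
  have e1 := few_lost (μ := μ) h hθ0 hθ1 hm hi hp hpr one_pos le_rfl
  filter_upwards [e1] with ω w1
  filter_upwards [w1, h.ev_le (show 0 < (θ - 1 + δ) by linarith),
    tendsto_log_nat.eventually_ge_atTop 1, eventually_ge_atTop X₀, eventually_gt_atTop 1]
    with q x1 x2 x3 x4 x5 q' hc
  obtain ⟨y1, y2⟩ := x1 q' hc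
  have hq0 : (0 : ℝ) < q := by positivity
  have hp0 := h.pos q
  have hqq' := hc.2.2.1
  -- `log² q / lam q ≥ q ^ (1 - δ)`
  have h1 : (q : ℝ) ^ (1 - δ) ≤ Real.log q ^ 2 / lam q := by
    rw [le_div_iff₀ hp0]
    calc (q : ℝ) ^ (1 - δ) * lam q ≤ (q : ℝ) ^ (1 - δ) * (q : ℝ) ^ (-θ + (θ - 1 + δ)) :=
          mul_le_mul_of_nonneg_left x2 (Real.rpow_nonneg hq0.le _)
      _ = 1 := by
          rw [← Real.rpow_add hq0]
          have : 1 - δ + (-θ + (θ - 1 + δ)) = 0 := by ring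
          rw [this, Real.rpow_zero]
      _ ≤ Real.log q ^ 2 := by nlinarith
  have h1' : (1 : ℝ) ≤ Real.log q ^ 2 / lam q := by
    refine le_trans ?_ h1
    exact Real.one_le_rpow (by exact_mod_cast x5.le) (by linarith)
  obtain ⟨Y, hY⟩ : ∃ Y, q' = q + Y + 1 := ⟨q' - q - 1, by omega⟩
  have hY' : (q' : ℝ) - q = Y + 1 := by rw [hY]; push_cast; ring
  have hgoal : (Y : ℝ) ≤ (2 / η + 1) * (Real.log q ^ 2 / lam q) →
      (q' : ℝ) - q ≤ (2 / η + 2) * Real.log q ^ 2 / lam q := by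
    intro h2
    rw [hY', mul_div_assoc]
    nlinarith
  apply hgoal
  rcases le_or_gt ((q : ℝ) ^ (1 - δ)) (Y : ℝ) with h2 | h2
  · have hYq : Y ≤ q := by
      have h3 : (q' : ℝ) ≤ 2 * q := by linarith
      have h4 : q' ≤ 2 * q := by exact_mod_cast h3
      omega
    have h3 := hH q Y x4 h2 hYq
    have h4 : ((Ioc q (q + Y)).filter Nat.Prime) = Po q q' := by
      ext m
      rw [mem_Po, Finset.mem_filter, Finset.mem_Ioc, hY]
      constructor
      · rintro ⟨⟨a1, a2⟩, a3⟩; exact ⟨⟨a1, by omega⟩, a3⟩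
      · rintro ⟨⟨a1, a2⟩, a3⟩; exact ⟨⟨a1, by omega⟩, a3⟩
    rw [h4] at h3
    have h5 : η * Y / Real.log q ≤ 2 * Real.log q / lam q := by
      refine (h3.trans y2).trans ?_
      apply div_le_div_of_nonneg_right _ hp0.le
      nlinarith
    have hl0 : 0 < Real.log q := by linarith
    have h6 : (Y : ℝ) ≤ 2 / η * (Real.log q ^ 2 / lam q) := by
      rw [div_le_div_iff₀ hl0 hp0] at h5
      have h7 : 2 / η * (Real.log q ^ 2 / lam q) = (2 * Real.log q * Real.log q) / (η * lam q) := by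
        field_simp
      rw [h7, le_div_iff₀ (by positivity)]
      linarith
    linarith
  · have : (0 : ℝ) ≤ 2 / η * (Real.log q ^ 2 / lam q) := by positivity
    linarith

end Pool.Agent.helper306_gaps
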